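import Pool.Agent.H92.RR.Targets

/-! MP_34b97f_an (board rr_modules), row RCER: a criterion for ergodicity. -/

set_option autoImplicit false

open MeasureTheory ProbabilityTheory Filter Topology Finset
open scoped ENNReal

namespace Pool.Agent.H1.RR

open Pool.Agent.H89.MT Pool.Agent.H92.RR

theorem shift_iter (m : ℕ) (x : X) (j : ℤ) : (shift^[m] x) j = x (j + m) := by
  induction m generalizing x with
  | zero => simp
  | succ m ih =>
    rw [Function.iterate_succ_apply, ih]
    show x (j + m + 1) = _
    congr 1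
    push_cast
    ring

/-- the monomials -/
noncomputable def mo (J : Finset ℤ) (a : ℤ → ℕ) (x : X) : ℝ := ∏ j ∈ J, (x j : ℝ) ^ a j

theorem measurable_mo (J : Finset ℤ) (a : ℤ → ℕ) : Measurable (mo J a) := by
  unfold mo
  fun_prop

theorem abs_mo_le (J : Finset ℤ) (a : ℤ → ℕ) (x : X) : |mo J a x| ≤ 1 := by
  unfold mo
  rw [Finset.abs_prod]
  refine Finset.prod_le_one (fun _ _ => abs_nonneg _) fun j _ => ?_
  rw [abs_pow]
  exact pow_le_one₀ (abs_nonneg _) (abs_le.2 ⟨(x j).2.1, (x j).2.2⟩)

theorem integrable_bdd (κ : Measure X) [IsProbabilityMeasure κ] (f : X → ℝ) (hf : Measurable f)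
    (C : ℝ) (hC : ∀ x, |f x| ≤ C) : Integrable f κ :=
  Integrable.of_bound hf.aestronglyMeasurable C (Eventually.of_forall fun x => hC x)

/-- approximation of an indicator by polynomials -/
theorem approx (hSWX : T_SWX) (κ : Measure X) [IsProbabilityMeasure κ] (A : Set X)
    (hA : MeasurableSet A) (δ : ℝ) (hδ : 0 < δ) (hδ1 : δ ≤ 1) :
    ∃ (m : ℕ) (J : Fin m → Finset ℤ) (a : Fin m → ℤ → ℕ) (c : Fin m → ℝ),
      (∀ x, |∑ i, c i * mo (J i) (a i) x| ≤ 2) ∧
      ∫ x, |A.indicator (fun _ => (1 : ℝ)) x - ∑ i, c i * mo (J i) (a i) x| ∂κ ≤ 2 * δ := by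
  have hint : Integrable (A.indicator (fun _ => (1 : ℝ))) κ :=
    (integrable_const (1 : ℝ)).indicator hA
  obtain ⟨g, hg, hgi⟩ := hint.exists_boundedContinuous_integral_sub_le hδ
  let F : C(X, ℝ) := ⟨fun x => max 0 (min (g x) 1), by fun_prop⟩
  have hF : ∀ x, F x = max 0 (min (g x) 1) := fun _ => rfl
  obtain ⟨m, J, a, c, hP⟩ := hSWX F δ hδ
  refine ⟨m, J, a, c, ?_, ?_⟩
  · intro x
    have h1 := hP x
    have h2 : |F x| ≤ 1 := by
      rw [hF, abs_of_nonneg (le_max_left _ _)]
      exact max_le zero_le_one (min_le_right _ _)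
    have h3 : |∑ i, c i * mo (J i) (a i) x| ≤
        |F x| + |F x - ∑ i, c i * mo (J i) (a i) x| := by
      have := abs_sub_abs_le_abs_sub (∑ i, c i * mo (J i) (a i) x) (F x)
      rw [abs_sub_comm (∑ i, c i * mo (J i) (a i) x) (F x)] at this
      linarith
    have h4 : |F x - ∑ i, c i * mo (J i) (a i) x| ≤ δ := h1
    linarith
  · have hle : ∀ x, |A.indicator (fun _ => (1 : ℝ)) x - ∑ i, c i * mo (J i) (a i) x| ≤
        ‖A.indicator (fun _ => (1 : ℝ)) x - g x‖ + δ := by
      intro x
      have h1 : |F x - ∑ i, c i * mo (J i) (a i) x| ≤ δ := hP x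
      have h2 : |A.indicator (fun _ => (1 : ℝ)) x - F x| ≤
          |A.indicator (fun _ => (1 : ℝ)) x - g x| := by
        rw [hF]
        by_cases hx : x ∈ A
        · rw [Set.indicator_of_mem hx]
          rcases le_total (g x) 0 with h | h
          · rw [min_eq_left (by linarith), max_eq_left h, sub_zero, abs_of_nonneg zero_le_one,
              abs_of_nonneg (by linarith)]
            linarith
          · rcases le_total (g x) 1 with h' | h'
            · rw [min_eq_left h', max_eq_right h]
            · rw [min_eq_right h', max_eq_right zero_le_one, sub_self, abs_zero]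
              exact abs_nonneg _
        · rw [Set.indicator_of_notMem hx]
          rcases le_total (g x) 0 with h | h
          · rw [min_eq_left (by linarith), max_eq_left h, sub_zero, abs_zero]
            exact abs_nonneg _
          · rcases le_total (g x) 1 with h' | h'
            · rw [min_eq_left h', max_eq_right h]
            · rw [min_eq_right h', max_eq_right zero_le_one, abs_of_nonpos (by linarith),
                abs_of_nonpos (by linarith)]
              linarith
      rw [Real.norm_eq_abs]
      calc |A.indicator (fun _ => (1 : ℝ)) x - ∑ i, c i * mo (J i) (a i) x|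
          = |(A.indicator (fun _ => (1 : ℝ)) x - F x) +
            (F x - ∑ i, c i * mo (J i) (a i) x)| := by
              congr 1
              ring
        _ ≤ |A.indicator (fun _ => (1 : ℝ)) x - F x| +
            |F x - ∑ i, c i * mo (J i) (a i) x| := abs_add_le _ _
        _ ≤ _ := add_le_add h2 h1
    calc ∫ x, |A.indicator (fun _ => (1 : ℝ)) x - ∑ i, c i * mo (J i) (a i) x| ∂κ
        ≤ ∫ x, (‖A.indicator (fun _ => (1 : ℝ)) x - g x‖ + δ) ∂κ := by
          refine integral_mono_of_nonneg (Eventually.of_forall fun x => abs_nonneg _) ?_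
            (Eventually.of_forall hle)
          exact ((hint.sub hgi).norm).add (integrable_const δ)
      _ = ∫ x, ‖A.indicator (fun _ => (1 : ℝ)) x - g x‖ ∂κ + δ := by
          have hn : Integrable (fun x => ‖A.indicator (fun _ => (1 : ℝ)) x - g x‖) κ :=
            (hint.sub hgi).norm
          rw [integral_add hn (integrable_const δ), integral_const]
          simp
      _ ≤ 2 * δ := by linarith

theorem pf_RCER (hSWX : T_SWX) : T_CER := by
  intro κ hκ hS hcor
  refine ⟨hS, ⟨?_⟩⟩
  intro A hA hinv
  set k : ℝ := κ.real A with hk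
  have hk0 : 0 ≤ k := measureReal_nonneg
  have hk1 : k ≤ 1 := measureReal_le_one
  let f : X → ℝ := A.indicator (fun _ => (1 : ℝ))
  have hfm : Measurable f := measurable_const.indicator hA
  have hf1 : ∀ x, |f x| ≤ 1 := by
    intro x
    by_cases hx : x ∈ A
    · rw [show f x = 1 from Set.indicator_of_mem hx _, abs_one]
    · rw [show f x = 0 from Set.indicator_of_notMem hx _, abs_zero]
      exact zero_le_one
  have hff : ∀ x, f x * f x = f x := by
    intro x
    by_cases hx : x ∈ A
    · rw [show f x = 1 from Set.indicator_of_mem hx _, one_mul]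
    · rw [show f x = 0 from Set.indicator_of_notMem hx _, zero_mul]
  have hfi : ∫ x, f x ∂κ = k := by
    show ∫ x, A.indicator (fun _ => (1 : ℝ)) x ∂κ = k
    rw [integral_indicator_const _ hA, smul_eq_mul, mul_one]
  have hinvm : ∀ (m : ℕ) (x : X), f (shift^[m] x) = f x := by
    intro m
    induction m with
    | zero => intro x; rfl
    | succ m ih =>
      intro x
      rw [Function.iterate_succ_apply, ih]
      have h1 : shift x ∈ A ↔ x ∈ A := by
        have : x ∈ shift ⁻¹' A ↔ x ∈ A := by rw [hinv]
        exact this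
      by_cases hx : x ∈ A
      · rw [show f x = 1 from Set.indicator_of_mem hx _,
          show f (shift x) = 1 from Set.indicator_of_mem (h1.2 hx) _]
      · rw [show f x = 0 from Set.indicator_of_notMem hx _,
          show f (shift x) = 0 from Set.indicator_of_notMem (fun h => hx (h1.1 h)) _]
  have hkey : ∀ δ : ℝ, 0 < δ → δ ≤ 1 → |k - k ^ 2| ≤ 14 * δ := by
    intro δ hδ hδ1
    obtain ⟨m, J, a, c, hb, hd⟩ := approx hSWX κ A hA δ hδ hδ1
    set p : X → ℝ := fun x => ∑ i, c i * mo (J i) (a i) x with hp
    have hpm : Measurable p := by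
      rw [hp]
      exact Finset.measurable_sum _ fun i _ => (measurable_mo _ _).const_mul _
    have hpi : Integrable p κ := integrable_bdd κ p hpm 2 hb
    have hfin : Integrable f κ := integrable_bdd κ f hfm 1 hf1
    have hdi : Integrable (fun x => |f x - p x|) κ := (hfin.sub hpi).abs
    have hd' : ∫ x, |f x - p x| ∂κ ≤ 2 * δ := hd
    have hSm : ∀ n : ℕ, MeasurePreserving (shift^[n]) κ κ := fun n => hS.iterate n
    -- one correlation
    have hone : ∀ n : ℕ, |k - ∫ x, p x * p (shift^[n] x) ∂κ| ≤ 6 * δ := by
      intro n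
      have hpn : Measurable fun x => p (shift^[n] x) := hpm.comp (hSm n).measurable
      have hppi : Integrable (fun x => p x * p (shift^[n] x)) κ := by
        refine integrable_bdd κ _ (hpm.mul hpn) 4 fun x => ?_
        rw [abs_mul]
        have h1 := hb x
        have h2 := hb (shift^[n] x)
        calc |p x| * |p (shift^[n] x)| ≤ 2 * 2 := mul_le_mul h1 h2 (abs_nonneg _) (by norm_num)
          _ = 4 := by norm_num
      have hdn : Integrable (fun x => |f (shift^[n] x) - p (shift^[n] x)|) κ :=
        (hSm n).integrable_comp_of_integrable hdi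
      have hdn' : ∫ x, |f (shift^[n] x) - p (shift^[n] x)| ∂κ = ∫ x, |f x - p x| ∂κ := by
        have hms : AEStronglyMeasurable (fun x => |f x - p x|) (κ.map (shift^[n])) := by
          rw [(hSm n).map_eq]
          exact hdi.aestronglyMeasurable
        have h := integral_map (hSm n).measurable.aemeasurable hms
        rw [(hSm n).map_eq] at h
        exact h.symm
      have h1 : k - ∫ x, p x * p (shift^[n] x) ∂κ =
          ∫ x, (f x * f (shift^[n] x) - p x * p (shift^[n] x)) ∂κ := by
        have h2 : ∫ x, f x * f (shift^[n] x) ∂κ = k := by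
          rw [← hfi]
          refine integral_congr_ae (Eventually.of_forall fun x => ?_)
          show f x * f (shift^[n] x) = f x
          rw [hinvm n x, hff x]
        rw [integral_sub ?_ hppi, h2]
        refine integrable_bdd κ _ (hfm.mul (hfm.comp (hSm n).measurable)) 1 fun x => ?_
        show |f x * f (shift^[n] x)| ≤ 1
        rw [hinvm n x, hff x]
        exact hf1 x
      rw [h1]
      refine (abs_integral_le_integral_abs).trans ?_
      calc ∫ x, |f x * f (shift^[n] x) - p x * p (shift^[n] x)| ∂κ
          ≤ ∫ x, (|f x - p x| + 2 * |f (shift^[n] x) - p (shift^[n] x)|) ∂κ := by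
            refine integral_mono_of_nonneg (Eventually.of_forall fun x => abs_nonneg _)
              (hdi.add (hdn.const_mul 2)) (Eventually.of_forall fun x => ?_)
            show |f x * f (shift^[n] x) - p x * p (shift^[n] x)| ≤
              |f x - p x| + 2 * |f (shift^[n] x) - p (shift^[n] x)|
            have e1 : f x * f (shift^[n] x) - p x * p (shift^[n] x) =
                (f x - p x) * f (shift^[n] x) + p x * (f (shift^[n] x) - p (shift^[n] x)) := by
              ring
            rw [e1]
            refine (abs_add_le _ _).trans (add_le_add ?_ ?_)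
            · rw [abs_mul]
              calc |f x - p x| * |f (shift^[n] x)| ≤ |f x - p x| * 1 :=
                    mul_le_mul_of_nonneg_left (hf1 _) (abs_nonneg _)
                _ = _ := mul_one _
            · rw [abs_mul]
              exact mul_le_mul_of_nonneg_right (hb x) (abs_nonneg _)
        _ = ∫ x, |f x - p x| ∂κ + 2 * ∫ x, |f (shift^[n] x) - p (shift^[n] x)| ∂κ := by
            rw [integral_add hdi (hdn.const_mul 2), integral_const_mul]
        _ ≤ 6 * δ := by
            rw [hdn']
            linarith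
    -- the averages
    have hlim : Tendsto (fun M : ℕ => (∑ n ∈ range M, ∫ x, p x * p (shift^[n] x) ∂κ) / M) atTop
        (𝓝 ((∫ x, p x ∂κ) ^ 2)) := by
      have h1 : ∀ n : ℕ, ∫ x, p x * p (shift^[n] x) ∂κ =
          ∑ i, ∑ i', (c i * c i') * ∫ x, (∏ j ∈ J i, (x j : ℝ) ^ a i j) *
            ∏ j ∈ J i', (x (j + n) : ℝ) ^ a i' j ∂κ := by
        intro n
        have e1 : ∀ x, p x * p (shift^[n] x) = ∑ i, ∑ i', (c i * c i') *
            ((∏ j ∈ J i, (x j : ℝ) ^ a i j) * ∏ j ∈ J i', (x (j + n) : ℝ) ^ a i' j) := by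
          intro x
          show (∑ i, c i * mo (J i) (a i) x) * (∑ i, c i * mo (J i) (a i) (shift^[n] x)) = _
          rw [Finset.sum_mul_sum]
          refine Finset.sum_congr rfl fun i _ => Finset.sum_congr rfl fun i' _ => ?_
          have e2 : mo (J i') (a i') (shift^[n] x) = ∏ j ∈ J i', (x (j + n) : ℝ) ^ a i' j := by
            unfold mo
            exact Finset.prod_congr rfl fun j _ => by rw [shift_iter]
          rw [e2]
          unfold mo
          ring
        have hI : ∀ i i', Integrable (fun x : X => (c i * c i') *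
            ((∏ j ∈ J i, (x j : ℝ) ^ a i j) * ∏ j ∈ J i', (x (j + n) : ℝ) ^ a i' j)) κ := by
          intro i i'
          refine Integrable.const_mul ?_ _
          refine integrable_bdd κ _ (by fun_prop) 1 fun x => ?_
          rw [abs_mul]
          have h2 := abs_mo_le (J i) (a i) x
          have h3 := abs_mo_le (J i') (a i') (shift^[n] x)
          have e2 : mo (J i') (a i') (shift^[n] x) = ∏ j ∈ J i', (x (j + n) : ℝ) ^ a i' j := by
            unfold mo
            exact Finset.prod_congr rfl fun j _ => by rw [shift_iter]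
          rw [e2] at h3
          exact mul_le_one₀ h2 (abs_nonneg _) h3
        rw [integral_congr_ae (Eventually.of_forall e1),
          integral_finsetSum _ fun i _ => integrable_finsetSum _ fun i' _ => hI i i']
        refine Finset.sum_congr rfl fun i _ => ?_
        rw [integral_finsetSum _ fun i' _ => hI i i']
        exact Finset.sum_congr rfl fun i' _ => integral_const_mul _ _
      have h2 : (∫ x, p x ∂κ) ^ 2 = ∑ i, ∑ i', (c i * c i') *
          ((∫ x, ∏ j ∈ J i, (x j : ℝ) ^ a i j ∂κ) * ∫ x, ∏ j ∈ J i', (x j : ℝ) ^ a i' j ∂κ) := by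
        have e1 : ∫ x, p x ∂κ = ∑ i, c i * ∫ x, ∏ j ∈ J i, (x j : ℝ) ^ a i j ∂κ := by
          show ∫ x, ∑ i, c i * mo (J i) (a i) x ∂κ = _
          rw [integral_finsetSum _ fun i _ => (integrable_bdd κ (mo (J i) (a i))
            (measurable_mo _ _) 1 (abs_mo_le _ _)).const_mul (c i)]
          exact Finset.sum_congr rfl fun i _ => integral_const_mul _ _
        rw [pow_two, e1, Finset.sum_mul_sum]
        exact Finset.sum_congr rfl fun i _ => Finset.sum_congr rfl fun i' _ => by ring
      rw [h2]
      have h3 : (fun M : ℕ => (∑ n ∈ range M, ∫ x, p x * p (shift^[n] x) ∂κ) / (M : ℝ)) =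
          fun M : ℕ => ∑ i, ∑ i', (c i * c i') * ((∑ n ∈ range M,
            ∫ x, (∏ j ∈ J i, (x j : ℝ) ^ a i j) *
              ∏ j ∈ J i', (x (j + n) : ℝ) ^ a i' j ∂κ) / (M : ℝ)) := by
        funext M
        rw [Finset.sum_congr rfl fun n _ => h1 n, Finset.sum_comm, Finset.sum_div]
        refine Finset.sum_congr rfl fun i _ => ?_
        rw [Finset.sum_comm, Finset.sum_div]
        refine Finset.sum_congr rfl fun i' _ => ?_
        rw [← Finset.mul_sum, mul_div_assoc]
      rw [h3]
      refine tendsto_finset_sum _ fun i _ => tendsto_finset_sum _ fun i' _ => ?_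
      exact (hcor (J i) (J i') (a i) (a i')).const_mul _
    have hle1 : |k - (∫ x, p x ∂κ) ^ 2| ≤ 6 * δ := by
      refine le_of_tendsto ((tendsto_const_nhds.sub hlim).abs) ?_
      filter_upwards [eventually_ge_atTop 1] with M hM
      have hM0 : (0 : ℝ) < M := by exact_mod_cast hM
      have e1 : k - (∑ n ∈ range M, ∫ x, p x * p (shift^[n] x) ∂κ) / (M : ℝ) =
          (∑ n ∈ range M, (k - ∫ x, p x * p (shift^[n] x) ∂κ)) / M := by
        rw [Finset.sum_sub_distrib, Finset.sum_const, card_range, nsmul_eq_mul, sub_div,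
          mul_div_cancel_left₀ _ hM0.ne']
      rw [e1, abs_div, abs_of_pos hM0, div_le_iff₀ hM0]
      refine (Finset.abs_sum_le_sum_abs _ _).trans ?_
      refine (Finset.sum_le_sum fun n _ => hone n).trans ?_
      rw [Finset.sum_const, card_range, nsmul_eq_mul]
      exact (mul_comm _ _).le
    have hle2 : |∫ x, p x ∂κ - k| ≤ 2 * δ := by
      rw [← hfi, ← integral_sub hpi hfin]
      refine (abs_integral_le_integral_abs).trans ?_
      refine le_trans (le_of_eq ?_) hd'
      exact integral_congr_ae (Eventually.of_forall fun x => abs_sub_comm _ _)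
    have hle3 : |∫ x, p x ∂κ| ≤ 3 := by
      have h1 := abs_sub_abs_le_abs_sub (∫ x, p x ∂κ) k
      rw [abs_of_nonneg hk0] at h1
      linarith
    have hle4 : |(∫ x, p x ∂κ) ^ 2 - k ^ 2| ≤ 8 * δ := by
      have e1 : (∫ x, p x ∂κ) ^ 2 - k ^ 2 = (∫ x, p x ∂κ - k) * (∫ x, p x ∂κ + k) := by ring
      rw [e1, abs_mul]
      have h1 : |∫ x, p x ∂κ + k| ≤ 4 := by
        refine (abs_add_le _ _).trans ?_
        rw [abs_of_nonneg hk0]
        linarith
      calc |∫ x, p x ∂κ - k| * |∫ x, p x ∂κ + k| ≤ (2 * δ) * 4 :=
            mul_le_mul hle2 h1 (abs_nonneg _) (by linarith)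
        _ = 8 * δ := by ring
    calc |k - k ^ 2| = |(k - (∫ x, p x ∂κ) ^ 2) + ((∫ x, p x ∂κ) ^ 2 - k ^ 2)| := by
          congr 1
          ring
      _ ≤ |k - (∫ x, p x ∂κ) ^ 2| + |(∫ x, p x ∂κ) ^ 2 - k ^ 2| := abs_add_le _ _
      _ ≤ 14 * δ := by linarith
  have hkk : k - k ^ 2 = 0 := by
    by_contra hne
    have h1 : 0 < |k - k ^ 2| := abs_pos.2 hne
    have h2 : |k - k ^ 2| ≤ 1 := by
      rw [abs_le]
      constructor <;> nlinarith
    have h3 := hkey (|k - k ^ 2| / 28) (by positivity) (by linarith)
    linarith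
  have h01 : k = 0 ∨ k = 1 := by
    have h1 : k * (1 - k) = 0 := by linarith
    rcases mul_eq_zero.1 h1 with h | h
    · exact Or.inl h
    · exact Or.inr (by linarith)
  rw [eventuallyConst_set']
  rcases h01 with h | h
  · left
    rw [ae_eq_empty]
    exact (measureReal_eq_zero_iff).1 h
  · right
    rw [ae_eq_univ, prob_compl_eq_zero_iff hA]
    have h4 : κ A = ENNReal.ofReal (κ.real A) := (ofReal_measureReal).symm
    rw [h4, ← hk, h, ENNReal.ofReal_one]

end Pool.Agent.H1.RR
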