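import Pool.Agent.H92.RR.Targets
import Pool.Agent.H60.MT.BER

/-! MP_34b97f_an (board rr_modules), row RISO: positive coordinates, the star measure is isomorphic
to a product of a Bernoulli system and an odometer. -/

set_option autoImplicit false

open MeasureTheory ProbabilityTheory Filter Topology Finset
open scoped ENNReal

namespace Pool.Agent.H1.RR

open Pool.Agent.H89.MT Pool.Agent.H92.RR

/-- the sign -/
noncomputable def sgn (t : I1) : I1 := if 0 ≤ (t : ℝ) then o1 else m1

theorem measurable_sgn : Measurable sgn := by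
  unfold sgn
  refine Measurable.ite ?_ measurable_const measurable_const
  exact measurableSet_le measurable_const (by fun_prop)

theorem measurable_ab : Measurable ab := by
  refine Measurable.subtype_mk ?_
  have h : Measurable fun a : I1 => (a : ℝ) := by fun_prop
  exact continuous_abs.measurable.comp h

theorem measurable_mu : Measurable fun z : I1 × I1 => mu z.1 z.2 := by
  refine Measurable.subtype_mk ?_
  fun_prop

/-- the projection -/
noncomputable def pij (z : X × X) : X := fun j => mu (z.1 j) (z.2 j)

theorem measurable_pij : Measurable pij := by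
  unfold pij
  refine measurable_pi_lambda _ fun j => ?_
  have h : Measurable fun z : X × X => ((z.1 j, z.2 j) : I1 × I1) := by fun_prop
  exact measurable_mu.comp h

/-- the section -/
noncomputable def fi (y : X) : X × X := (fun j => sgn (y j), fun j => ab (y j))

theorem measurable_fi : Measurable fi := by
  unfold fi
  refine Measurable.prodMk ?_ ?_
  · exact measurable_pi_lambda _ fun j => measurable_sgn.comp (measurable_pi_apply j)
  · exact measurable_pi_lambda _ fun j => measurable_ab.comp (measurable_pi_apply j)

theorem pij_fi (y : X) : pij (Prod.swap (fi y)) = y := by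
  funext j
  apply Subtype.ext
  show |(y j : ℝ)| * (sgn (y j) : ℝ) = y j
  unfold sgn
  split_ifs with h
  · show |(y j : ℝ)| * 1 = y j
    rw [abs_of_nonneg h, mul_one]
  · show |(y j : ℝ)| * (-1) = y j
    rw [abs_of_neg (not_le.1 h)]
    ring

theorem fi_pij (z : X × X) (h1 : ∀ j, 0 < (z.1 j : ℝ)) (h2 : ∀ j, |(z.2 j : ℝ)| = 1) :
    fi (pij z) = Prod.swap z := by
  have h3 : ∀ j, (z.2 j : ℝ) = 1 ∨ (z.2 j : ℝ) = -1 := by
    intro j
    rcases abs_eq (zero_le_one) |>.1 (h2 j) with h | h
    · exact Or.inl h
    · exact Or.inr h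
  refine Prod.ext ?_ ?_
  · funext j
    apply Subtype.ext
    show (sgn (mu (z.1 j) (z.2 j)) : ℝ) = z.2 j
    unfold sgn
    have h4 : ((mu (z.1 j) (z.2 j) : I1) : ℝ) = (z.1 j : ℝ) * z.2 j := rfl
    rw [h4]
    rcases h3 j with h | h
    · rw [h, mul_one, if_pos (h1 j).le]
      rfl
    · rw [h, if_neg (by have := h1 j; linarith)]
      rfl
  · funext j
    apply Subtype.ext
    show |(z.1 j : ℝ) * z.2 j| = z.1 j
    rw [abs_mul, h2 j, mul_one, abs_of_pos (h1 j)]

theorem pf_RISO : T_ISO := by
  intro α hα hod hpos
  have hprob : IsProbabilityMeasure bern := by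
    unfold bern
    infer_instance
  have hae : ∀ᵐ z ∂(α.prod bern), fi (pij z) = Prod.swap z := by
    have h1 : ∀ᵐ z ∂(α.prod bern), ∀ j : ℤ, 0 < (z.1 j : ℝ) :=
      Measure.quasiMeasurePreserving_fst.ae hpos
    have h2 : ∀ᵐ z ∂(α.prod bern), ∀ j : ℤ, |(z.2 j : ℝ)| = 1 :=
      Measure.quasiMeasurePreserving_snd.ae Pool.Agent.H60.MT.pf_BER.1
    filter_upwards [h1, h2] with z hz1 hz2
    exact fi_pij z hz1 hz2
  have hstar : star α = (α.prod bern).map pij := rfl
  refine ⟨fair, α, inferInstance, hα, hod, fi, fun z => pij (Prod.swap z), measurable_fi,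
    measurable_pij.comp measurable_swap, ?_, ?_, ?_, ?_, ?_⟩
  · rw [hstar, Measure.map_map measurable_fi measurable_pij]
    have h3 : (fi ∘ pij) =ᵐ[α.prod bern] Prod.swap := hae
    rw [Measure.map_congr h3]
    exact Measure.prod_swap
  · show ((bern).prod α).map (pij ∘ Prod.swap) = star α
    rw [← Measure.map_map measurable_pij measurable_swap, Measure.prod_swap]
    exact hstar.symm
  · exact Eventually.of_forall fun y => pij_fi y
  · show ∀ᵐ z ∂(bern.prod α), fi (pij (Prod.swap z)) = z
    have h4 : ∀ᵐ z ∂((α.prod bern).map Prod.swap), fi (pij (Prod.swap z)) = z := by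
      have hq : Measure.QuasiMeasurePreserving (Prod.swap : X × X → X × X)
          ((α.prod bern).map Prod.swap) (α.prod bern) := by
        rw [Measure.prod_swap]
        exact ⟨measurable_swap, by rw [Measure.prod_swap]⟩
      have h5 := hq.ae hae
      filter_upwards [h5] with z hz
      rw [hz, Prod.swap_swap]
    rw [Measure.prod_swap] at h4
    exact h4
  · exact Eventually.of_forall fun y => rfl

end Pool.Agent.H1.RR
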